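import Mathlib
import Pool.Agent.Y749.VV.Defs
import Pool.Agent.Y749.VV.Vec
import Pool.Agent.Y749.VV.Up4
import Pool.Agent.Y749.VV.Low2
import Pool.Agent.Y749.VV.Deg

/-! The best constant in `‖f‖_2 ≤ K ‖f‖_1` for functions of degree at most `d` on the hypercube, with
values in an arbitrary normed space, up to the factor `2(d+1)`, for every degree `d`. -/

namespace Pool.Agent.Results.MP_041491_an.DegreeByDegree

open Pool.Agent.Helper228.HC (Cube)
open Pool.Agent.Y749.VV (lpE degreeE)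

/-- `C` is admissible for the normed space `E` if `C > 0` and `‖f‖_2 ≤ C^{deg f} ‖f‖_1` for every
`n ≥ 1` and every function `f : {-1,1}^n → E`. -/
def Admissible (E : Type*) [NormedAddCommGroup E] [NormedSpace ℝ E] (C : ℝ) : Prop :=
  0 < C ∧ ∀ n : ℕ, 1 ≤ n → ∀ f : Cube n → E, lpE 2 f ≤ C ^ degreeE f * lpE 1 f

/-- `K` is admissible in degree at most `d` if `K > 0` and `‖f‖_2 ≤ K ‖f‖_1` for every `n ≥ 1` and
every function `f : {-1,1}^n → E` of degree at most `d`. -/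
def AdmissibleAt (E : Type*) [NormedAddCommGroup E] [NormedSpace ℝ E] (d : ℕ) (K : ℝ) : Prop :=
  0 < K ∧ ∀ n : ℕ, 1 ≤ n → ∀ f : Cube n → E, degreeE f ≤ d → lpE 2 f ≤ K * lpE 1 f

/-- For every nonzero real normed space `E`: the smallest admissible constant is `√3` (for `E = ℝ` this
is the constant `C*` of the problem); moreover, for every single degree `d`, the best constant `K_d(E)`
for functions of degree at most `d` exists and satisfies `√3^d / (2(d+1)) ≤ K_d(E) ≤ √3^d`. -/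
theorem result (E : Type*) [NormedAddCommGroup E] [NormedSpace ℝ E] [Nontrivial E] :
    IsLeast {C : ℝ | Admissible E C} (Real.sqrt 3) ∧
    ∀ d : ℕ, ∃ K : ℝ, IsLeast {K : ℝ | AdmissibleAt E d K} K ∧
      Real.sqrt 3 ^ d / (2 * ((d : ℝ) + 1)) ≤ K ∧ K ≤ Real.sqrt 3 ^ d := by
  obtain ⟨v, hv⟩ := exists_ne (0 : E)
  refine ⟨⟨⟨Real.sqrt_pos.2 (by norm_num), ?_⟩, ?_⟩, ?_⟩
  · intro n _ f
    exact Pool.Agent.Y749.VV.upper_deg _ f le_rfl
  · rintro C ⟨hC0, hC⟩
    have h := Pool.Agent.Y749.VV.real_of_vec one_pos (by norm_num : (0 : ℝ) < 2) hv hC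
    have h1 := Pool.Agent.Y749.VV.lowerQ (q := 2) le_rfl (Pool.Agent.Y749.VV.one_le_of hC0 h) h
    have e : (2 * 2 - 1 : ℝ) = 3 := by norm_num
    rwa [e] at h1
  · intro d
    have hup : AdmissibleAt E d (Real.sqrt 3 ^ d) :=
      ⟨pow_pos (Real.sqrt_pos.2 (by norm_num)) d,
        fun n _ f hf => Pool.Agent.Y749.VV.upper_deg d f hf⟩
    have hlow : ∀ K : ℝ, AdmissibleAt E d K → Real.sqrt 3 ^ d / (2 * ((d : ℝ) + 1)) ≤ K :=
      fun K hK => Pool.Agent.Y749.VV.lower_deg hK.1.le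
        (Pool.Agent.Y749.VV.real_of_vec_deg hv hK.2)
    have hne : {K : ℝ | AdmissibleAt E d K}.Nonempty := ⟨_, hup⟩
    have hbdd : BddBelow {K : ℝ | AdmissibleAt E d K} := ⟨_, hlow⟩
    have hl : Real.sqrt 3 ^ d / (2 * ((d : ℝ) + 1)) ≤ sInf {K : ℝ | AdmissibleAt E d K} :=
      le_csInf hne hlow
    have hpos : 0 < Real.sqrt 3 ^ d / (2 * ((d : ℝ) + 1)) := by positivity
    refine ⟨sInf {K : ℝ | AdmissibleAt E d K}, ⟨⟨hpos.trans_le hl, ?_⟩, ?_⟩, hl, csInf_le hbdd hup⟩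
    · intro n hn f hf
      rcases (Pool.Agent.Y749.VV.lpE_nonneg 1 f).eq_or_lt with h0 | h0
      · have h1 := Pool.Agent.Y749.VV.upper_deg d f hf
        rw [← h0, mul_zero] at h1 ⊢
        exact h1
      · rw [← div_le_iff₀ h0]
        exact le_csInf hne fun K hK => (div_le_iff₀ h0).2 (hK.2 n hn f hf)
    · intro K hK
      exact csInf_le hbdd hK

end Pool.Agent.Results.MP_041491_an.DegreeByDegree
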